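import Pool.Agent.T2h18.BC.Main
import Pool.Agent.T2h18.BC.JIN
import Pool.Agent.T2h18.BC.BAS
import Pool.Agent.T2h18.BC.GRE
import Pool.Agent.T2h18.BC.IND
import Pool.Agent.T2h18.BC.COL
import Pool.Agent.T2h18.BC.ESS
import Pool.Agent.T2h18.BC.RNK
import Pool.Agent.T2h18.BC.LAM
import Pool.Agent.T2h18.BC.GLU
import Pool.Agent.T2h18.BC.SID
import Pool.Agent.T2h18.BC.TWO
import Pool.Agent.T2h18.BC.CNT
import Pool.Agent.T2h18.BC.TH1
import Pool.Agent.T2h18.BC.TH2
import Pool.Agent.T2h18.BC.TH3
import Pool.Agent.T2h18.BC.DAT
import Pool.Agent.T2h18.BC.CLS
import Pool.Agent.T2h18.BC.UFS
import Pool.Agent.T2h18.BC.Lit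

set_option autoImplicit false

/-!
# The class of bicircular matroids is efficiently pigeonhole

The definitions are in `Pool/Agent/T2h18/BC/Pig.lean` (`Graph`, `rank`, `ConnLe`, `Sim`, `Succinct`,
`EfficientlyPigeonhole`), `Pool/Agent/T2h18/BC/Lit.lean` (`Indep`: each connected component contains at most one
cycle) and `Pool/Agent/T2h18/BC/Defs.lean` (`J`: joined by a walk); the machine model is Mathlib's
`Turing.TM2`, instances are coded by bit strings (`Pool.Agent.NPC.bits`, numbers in binary).

Proof. Let `G` be a graph, `U` a set of edges, `λ = λ(U)`. An edge `f` with the ends `x`, `y` is in a circuit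
of the bicircular matroid iff in `G - f` the components of `x` and of `y` both contain a cycle; let `E'` be the
set of these edges. For `X ⊆ U` let `X*` be the set of the `f ∈ X ∩ E'` such that `X` contains all
`e ∈ U` for which `f` is in no circuit of `E - e`. No edge of `X \ X*` and no edge outside `E'` is in a circuit
of `X ∪ Z`, `Z ⊆ E - U`, so `X ∪ Z` is independent iff `X* ∪ (Z ∩ E')` is independent. Let `V'` be the set of the ends
of the edges of `E' \ U`. The relation is: `X` and `X'` are both dependent, or both are independent, the sets
`X*` and `X'*` have the same components on `V'` and the same components of elements of `V'` contain cycles. It is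
computed by union-find in polynomial time and it implies `∼_U`. The number of classes: let
`A = U ∩ E'`, `B = E' \ U`, and `P` the set of the vertices where `A` and `B` meet. By the rank formula
`|P| ≤ λ + t_A + t_B`, where `t_A`, `t_B` are the numbers of the components of `A`, `B` which are trees, and each of
these trees contains at least two vertices of `P`, so all but at most `6 λ` vertices of `P` are thin on both sides:
their components in `A` and in `B` are trees with exactly two vertices in `P`. The thin components form chains, and
the trees of `A` in a chain are in series, so `X*` contains all of them or connects the ends of none of them. There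
is no closed chain because its edges would be in no circuit. Hence the data of `X*` on `P` are determined by
`(6 λ)^2 + 3 (6 λ)` bits.

The parts were proved by helper1, helper12, helper13, helper18, helper25, helper33, helper38, helper41, helper68,
helper86 and helper99.
-/

namespace Pool.Agent.Results.MP_cce914_co.BicircularMatroids

open Pool.Agent.T2h18.BC

/-- The bicircular matroids, represented by their graphs, are succinctly represented, and they form an
efficiently pigeonhole class. (`Indep G.ends X`: each connected component of the subgraph formed by the edge
set `X` contains at most one cycle.) -/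
theorem result : Succinct Graph.m (fun G => Indep G.ends) Graph.list ∧
    EfficientlyPigeonhole Graph.m (fun G => Indep G.ends) Graph.list := by
  have h : (fun G : Graph => Indep G.ends) = fun G : Graph => Ind G.ends := by
    funext G X
    exact propext (indep_iff (t_BAS t_JIN G.m (2 * G.m) G.ends) X)
  rw [h]
  exact main t_JIN t_BAS t_GRE t_IND t_COL t_ESS t_RNK t_LAM t_GLU t_SID t_TWO t_CNT t_TH1 t_TH2 t_TH3
    t_DAT t_CLS t_UFS

end Pool.Agent.Results.MP_cce914_co.BicircularMatroids
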